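import Pool.Agent.E8helper8.EC.Stm

/-! # Contiguous maps have homotopic realizations (piece CONT) -/

set_option autoImplicit false

open CategoryTheory Simplicial Opposite unitInterval

namespace Pool.Agent.E8helper52.EC

open Pool.Agent.E8helper8.EC

theorem push_apply {m n : ℕ} (α : ⦋m⦌ ⟶ ⦋n⦌) (x : Dl m) (i : Fin (n + 1)) :
    push α x i = ∑ j : Fin (m + 1), if α.toOrderHom j = i then x j else 0 := by
  change FunOnFinite.linearMap ℝ ℝ α.toOrderHom x i = _
  rw [FunOnFinite.linearMap_apply_apply, Finset.sum_filter]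

/-- the join point -/
noncomputable def jn (n : ℕ) (x : Dl n) (t : I) : Dl (n + 1 + n) :=
  ⟨(Fin.append (fun i => (1 - (t : ℝ)) * x i) (fun i => (t : ℝ) * x i) :
    Fin (n + 1 + (n + 1)) → ℝ), by
    have h0 : ∀ i, 0 ≤ x i := x.2.1
    have h1 : ∑ i, x i = 1 := x.2.2
    have ht0 : 0 ≤ (t : ℝ) := t.2.1
    have ht1 : (t : ℝ) ≤ 1 := t.2.2
    constructor
    · intro i
      refine Fin.addCases (m := n + 1) (n := n + 1) (fun i => ?_) (fun i => ?_) i
      · rw [Fin.append_left]
        exact mul_nonneg (by linarith) (h0 i)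
      · rw [Fin.append_right]
        exact mul_nonneg ht0 (h0 i)
    · change ∑ i : Fin (n + 1 + (n + 1)), _ = _
      rw [Fin.sum_univ_add]
      simp only [Fin.append_left, Fin.append_right]
      rw [← Finset.mul_sum, ← Finset.mul_sum, h1]
      ring⟩

theorem jn_left (n : ℕ) (x : Dl n) (t : I) (i : Fin (n + 1)) :
    jn n x t (Fin.castAdd (n + 1) i) = (1 - (t : ℝ)) * x i := by
  change (Fin.append (fun i => (1 - (t : ℝ)) * x i) (fun i => (t : ℝ) * x i) :
    Fin (n + 1 + (n + 1)) → ℝ) (Fin.castAdd (n + 1) i) = _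
  rw [Fin.append_left]

theorem jn_right (n : ℕ) (x : Dl n) (t : I) (i : Fin (n + 1)) :
    jn n x t (Fin.natAdd (n + 1) i) = (t : ℝ) * x i := by
  change (Fin.append (fun i => (1 - (t : ℝ)) * x i) (fun i => (t : ℝ) * x i) :
    Fin (n + 1 + (n + 1)) → ℝ) (Fin.natAdd (n + 1) i) = _
  rw [Fin.append_right]

theorem jn_cont (n : ℕ) : Continuous (fun p : Dl n × I => jn n p.1 p.2) := by
  apply Continuous.subtype_mk
  apply continuous_pi
  intro i
  have hx : ∀ i : Fin (n + 1), Continuous fun p : Dl n × I => p.1 i := fun i =>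
    ((continuous_apply i).comp continuous_subtype_val).comp continuous_fst
  have ht : Continuous fun p : Dl n × I => (p.2 : ℝ) :=
    continuous_subtype_val.comp continuous_snd
  refine Fin.addCases (m := n + 1) (n := n + 1) (fun i => ?_) (fun i => ?_) i
  · simp only [Fin.append_left]
    exact (continuous_const.sub ht).mul (hx i)
  · simp only [Fin.append_right]
    exact ht.mul (hx i)

/-- the map `α ⊕ α` -/
def dblf {m n : ℕ} (α : Fin (m + 1) → Fin (n + 1)) : Fin (m + 1 + (m + 1)) → Fin (n + 1 + (n + 1)) :=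
  Fin.append (fun i => Fin.castAdd (n + 1) (α i)) (fun i => Fin.natAdd (n + 1) (α i))

theorem dblf_left {m n : ℕ} (α : Fin (m + 1) → Fin (n + 1)) (i : Fin (m + 1)) :
    dblf α (Fin.castAdd (m + 1) i) = Fin.castAdd (n + 1) (α i) := Fin.append_left _ _ _

theorem dblf_right {m n : ℕ} (α : Fin (m + 1) → Fin (n + 1)) (i : Fin (m + 1)) :
    dblf α (Fin.natAdd (m + 1) i) = Fin.natAdd (n + 1) (α i) := Fin.append_right _ _ _

theorem dblf_mono {m n : ℕ} (α : Fin (m + 1) → Fin (n + 1)) (hα : Monotone α) :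
    Monotone (dblf α) := by
  intro a b hab
  induction a using Fin.addCases with
  | left i =>
    induction b using Fin.addCases with
    | left j =>
      rw [dblf_left, dblf_left]
      have h : i ≤ j := by
        rw [Fin.le_def] at hab ⊢
        simpa using hab
      have := hα h
      rw [Fin.le_def] at this ⊢
      simpa using this
    | right j =>
      rw [dblf_left, dblf_right, Fin.le_def, Fin.val_castAdd, Fin.val_natAdd]
      omega
  | right i =>
    induction b using Fin.addCases with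
    | left j =>
      exfalso
      rw [Fin.le_def, Fin.val_castAdd, Fin.val_natAdd] at hab
      omega
    | right j =>
      rw [dblf_right, dblf_right]
      have h : i ≤ j := by
        rw [Fin.le_def] at hab ⊢
        simpa using hab
      have := hα h
      rw [Fin.le_def] at this ⊢
      simpa using this

/-- the map `α ⊕ α` -/
def dbl {m n : ℕ} (α : ⦋m⦌ ⟶ ⦋n⦌) : (⦋m + 1 + m⦌ : SimplexCategory) ⟶ ⦋n + 1 + n⦌ :=
  SimplexCategory.mkHom ⟨dblf α.toOrderHom, dblf_mono _ α.toOrderHom.monotone⟩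

theorem sum_dbl {m n : ℕ} (f : Fin (m + 1) → Fin (n + 1)) (x : Fin (m + 1) → ℝ) (s t : ℝ)
    (i : Fin (n + 1 + (n + 1))) :
    ∑ j : Fin (m + 1 + (m + 1)), (if dblf f j = i then
      (Fin.append (fun i => s * x i) (fun i => t * x i) : Fin (m + 1 + (m + 1)) → ℝ) j else 0) =
    (Fin.append (fun i => s * ∑ j : Fin (m + 1), if f j = i then x j else 0)
      (fun i => t * ∑ j : Fin (m + 1), if f j = i then x j else 0) :
        Fin (n + 1 + (n + 1)) → ℝ) i := by
  rw [Fin.sum_univ_add]
  simp only [dblf_left, dblf_right, Fin.append_left, Fin.append_right]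
  refine Fin.addCases (m := n + 1) (n := n + 1) (fun i => ?_) (fun i => ?_) i
  · rw [Fin.append_left, Finset.mul_sum]
    have h1 : ∀ j ∈ (Finset.univ : Finset (Fin (m + 1))),
        (if Fin.natAdd (n + 1) (f j) = Fin.castAdd (n + 1) i then t * x j else 0) = 0 := by
      intro j _
      rw [if_neg]
      intro h
      have := congrArg Fin.val h
      rw [Fin.val_castAdd, Fin.val_natAdd] at this
      omega
    rw [Finset.sum_eq_zero h1, add_zero]
    apply Finset.sum_congr rfl
    intro j _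
    by_cases h : f j = i
    · rw [if_pos h, if_pos (by rw [h])]
    · rw [if_neg h, if_neg (fun h2 => h (Fin.castAdd_injective _ _ h2)), mul_zero]
  · rw [Fin.append_right, Finset.mul_sum]
    have h1 : ∀ j ∈ (Finset.univ : Finset (Fin (m + 1))),
        (if Fin.castAdd (n + 1) (f j) = Fin.natAdd (n + 1) i then s * x j else 0) = 0 := by
      intro j _
      rw [if_neg]
      intro h
      have := congrArg Fin.val h
      rw [Fin.val_castAdd, Fin.val_natAdd] at this
      omega
    rw [Finset.sum_eq_zero h1, zero_add]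
    apply Finset.sum_congr rfl
    intro j _
    by_cases h : f j = i
    · rw [if_pos h, if_pos (by rw [h])]
    · rw [if_neg h, if_neg (fun h2 => h (Fin.natAdd_injective _ _ h2)), mul_zero]

theorem push_dbl {m n : ℕ} (α : ⦋m⦌ ⟶ ⦋n⦌) (x : Dl m) (t : I) :
    push (dbl α) (jn m x t) = jn n (push α x) t := by
  apply Subtype.ext
  funext i
  change push (dbl α) (jn m x t) i = _
  rw [push_apply]
  refine (sum_dbl (n := n) α.toOrderHom (fun j => x j) (1 - (t : ℝ)) t i).trans ?_
  change _ = (Fin.append (fun i => (1 - (t : ℝ)) * push α x i) (fun i => (t : ℝ) * push α x i) :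
    Fin (n + 1 + (n + 1)) → ℝ) i
  have h : ∀ i, push α x i = ∑ j : Fin (m + 1), if α.toOrderHom j = i then x j else 0 :=
    fun i => push_apply α x i
  simp only [h]

/-- the two inclusions -/
def inl (n : ℕ) : (⦋n⦌ : SimplexCategory) ⟶ ⦋n + 1 + n⦌ :=
  SimplexCategory.mkHom ⟨fun i => (Fin.castAdd (n + 1) i : Fin (n + 1 + (n + 1))), by
    intro a b hab
    rw [Fin.le_def] at hab ⊢
    simpa using hab⟩

/-- the two inclusions -/
def inr (n : ℕ) : (⦋n⦌ : SimplexCategory) ⟶ ⦋n + 1 + n⦌ :=
  SimplexCategory.mkHom ⟨fun i => (Fin.natAdd (n + 1) i : Fin (n + 1 + (n + 1))), by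
    intro a b hab
    rw [Fin.le_def] at hab ⊢
    simpa using hab⟩

theorem push_inl (n : ℕ) (x : Dl n) : push (inl n) x = jn n x 0 := by
  apply Subtype.ext
  funext i
  change push (inl n) x i = jn n x 0 i
  rw [push_apply]
  change ∑ j : Fin (n + 1), (if Fin.castAdd (n + 1) j = i then x j else 0) = _
  refine Fin.addCases (m := n + 1) (n := n + 1) (fun i => ?_) (fun i => ?_) i
  · rw [jn_left, Finset.sum_eq_single i]
    · rw [if_pos rfl]
      simp
    · intro j _ hj
      rw [if_neg (fun h => hj (Fin.castAdd_injective _ _ h))]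
    · intro h
      exact absurd (Finset.mem_univ i) h
  · rw [jn_right, Finset.sum_eq_zero]
    · simp
    · intro j _
      rw [if_neg]
      intro h
      have := congrArg Fin.val h
      rw [Fin.val_castAdd, Fin.val_natAdd] at this
      omega

theorem push_inr (n : ℕ) (x : Dl n) : push (inr n) x = jn n x 1 := by
  apply Subtype.ext
  funext i
  change push (inr n) x i = jn n x 1 i
  rw [push_apply]
  change ∑ j : Fin (n + 1), (if Fin.natAdd (n + 1) j = i then x j else 0) = _
  refine Fin.addCases (m := n + 1) (n := n + 1) (fun i => ?_) (fun i => ?_) i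
  · rw [jn_left, Finset.sum_eq_zero]
    · simp
    · intro j _
      rw [if_neg]
      intro h
      have := congrArg Fin.val h
      rw [Fin.val_castAdd, Fin.val_natAdd] at this
      omega
  · rw [jn_right, Finset.sum_eq_single i]
    · rw [if_pos rfl]
      simp
    · intro j _ hj
      rw [if_neg (fun h => hj (Fin.natAdd_injective _ _ h))]
    · intro h
      exact absurd (Finset.mem_univ i) h

theorem t_CONT : S_CONT := by
  intro R P P' C C' φ ψ hφ hψ hap
  obtain ⟨R1, R2, R3, R4⟩ := R
  let w : ∀ n, C.sset.obj (op ⦋n⦌) → C'.sset.obj (op ⦋n + 1 + n⦌) := fun n v =>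
    ⟨(Fin.append (φ ∘ v.1) (ψ ∘ v.1) : Fin (n + 1 + (n + 1)) → P'), hap n v.1 v.2⟩
  have hw : ∀ (n m : ℕ) (α : ⦋m⦌ ⟶ ⦋n⦌) (v : C.sset.obj (op ⦋n⦌)),
      C'.sset.map (dbl α).op (w n v) = w m (C.sset.map α.op v) := by
    intro n m α v
    apply Subtype.ext
    funext i
    change (Fin.append (φ ∘ v.1) (ψ ∘ v.1) : Fin (n + 1 + (n + 1)) → P') (dblf α.toOrderHom i) =
      (Fin.append (φ ∘ (v.1 ∘ α.toOrderHom)) (ψ ∘ (v.1 ∘ α.toOrderHom)) :
        Fin (m + 1 + (m + 1)) → P') i
    refine Fin.addCases (m := m + 1) (n := m + 1) (fun i => ?_) (fun i => ?_) i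
    · rw [dblf_left, Fin.append_left, Fin.append_left]
      rfl
    · rw [dblf_right, Fin.append_right, Fin.append_right]
      rfl
  have hwl : ∀ (n : ℕ) (v : C.sset.obj (op ⦋n⦌)),
      C'.sset.map (inl n).op (w n v) = (vmap C C' φ hφ).app (op ⦋n⦌) v := by
    intro n v
    apply Subtype.ext
    funext i
    change (Fin.append (φ ∘ v.1) (ψ ∘ v.1) : Fin (n + 1 + (n + 1)) → P') (Fin.castAdd (n + 1) i) =
      (φ ∘ v.1) i
    rw [Fin.append_left]
  have hwr : ∀ (n : ℕ) (v : C.sset.obj (op ⦋n⦌)),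
      C'.sset.map (inr n).op (w n v) = (vmap C C' ψ hψ).app (op ⦋n⦌) v := by
    intro n v
    apply Subtype.ext
    funext i
    change (Fin.append (φ ∘ v.1) (ψ ∘ v.1) : Fin (n + 1 + (n + 1)) → P') (Fin.natAdd (n + 1) i) =
      (ψ ∘ v.1) i
    rw [Fin.append_right]
  obtain ⟨H, hH⟩ := R2 C.sset C(I, Rl C'.sset) (fun n v =>
    ContinuousMap.curry ((ch C'.sset (n + 1 + n) (w n v)).comp ⟨_, jn_cont n⟩)) (by
      intro n m α v x
      ext t
      change ch C'.sset (m + 1 + m) (w m (C.sset.map α.op v)) (jn m x t) =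
        ch C'.sset (n + 1 + n) (w n v) (jn n (push α x) t)
      rw [← hw, R1, push_dbl])
  refine ⟨⟨⟨fun p => H p.2 p.1, ?_⟩, ?_, ?_⟩⟩
  · exact (ContinuousMap.continuous_uncurry_of_continuous H).comp continuous_swap
  · intro p
    obtain ⟨n, v, x, rfl⟩ := R3 C.sset p
    change H (ch C.sset n v x) 0 = _
    rw [hH, R4, ← hwl, R1, push_inl]
    rfl
  · intro p
    obtain ⟨n, v, x, rfl⟩ := R3 C.sset p
    change H (ch C.sset n v x) 1 = _
    rw [hH, R4, ← hwr, R1, push_inr]
    rfl

end Pool.Agent.E8helper52.EC
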